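import Mathlib

set_option autoImplicit false

open Matrix Finset
open scoped ComplexOrder Matrix.Norms.L2Operator

namespace Pool.Agent.H.MP_2725c9_mp

abbrev X : Type := Fin 3 → Fin 2

abbrev A (I : Finset (Fin 3)) : Type := {i // i ∈ I} → Fin 2

abbrev B (I : Finset (Fin 3)) : Type := {i // i ∉ I} → Fin 2

def mg (I : Finset (Fin 3)) (a : A I) (c : B I) : X :=
  fun i => if h : i ∈ I then a ⟨i, h⟩ else c ⟨i, h⟩

noncomputable def ptr (I : Finset (Fin 3)) (σ : Matrix X X ℂ) : Matrix (A I) (A I) ℂ :=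
  Matrix.of fun a b => ∑ c : B I, σ (mg I a c) (mg I b c)

noncomputable def ff (I : Finset (Fin 3)) (ρ : Matrix (A I) (A I) ℂ) : ℝ :=
  if I.card = 2 then ‖ρ‖ else 0

theorem ff_cont (I : Finset (Fin 3)) : Continuous (ff I) := by
  unfold ff; split_ifs
  · exact continuous_norm
  · exact continuous_const

theorem ff_convex (I : Finset (Fin 3)) :
    ConvexOn ℝ {ρ : Matrix (A I) (A I) ℂ | ρ.PosSemidef ∧ ρ.trace = 1} (ff I) := by
  have hc : Convex ℝ {ρ : Matrix (A I) (A I) ℂ | ρ.PosSemidef ∧ ρ.trace = 1} := by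
    intro x hx y hy a b ha hb hab
    refine ⟨(hx.1.smul ha).add (hy.1.smul hb), ?_⟩
    rw [trace_add, trace_smul, trace_smul, hx.2, hy.2, ← add_smul, hab, one_smul]
  unfold ff; split_ifs
  · exact convexOn_norm hc
  · exact convexOn_const _ hc

theorem norm_conj {n : Type} [Fintype n] [DecidableEq n] (U ρ : Matrix n n ℂ)
    (hU : U ∈ Matrix.unitaryGroup n ℂ) : ‖U * ρ * star U‖ = ‖ρ‖ := by
  rw [CStarRing.norm_mul_mem_unitary _ (Unitary.star_mem hU), CStarRing.norm_mem_unitary_mul _ hU]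

theorem ff_inv (I : Finset (Fin 3)) (U ρ : Matrix (A I) (A I) ℂ)
    (hU : U ∈ Matrix.unitaryGroup (A I) ℂ) : ff I (U * ρ * star U) = ff I ρ := by
  unfold ff; rw [norm_conj U ρ hU]

theorem sum_mg {M : Type} [AddCommMonoid M] (I : Finset (Fin 3)) (g : X → M) :
    ∑ x, g x = ∑ a : A I, ∑ c : B I, g (mg I a c) := by
  rw [← Fintype.sum_prod_type',
    ← (Equiv.piEquivPiSubtypeProd (fun i => i ∈ I) (fun _ => Fin 2)).symm.sum_comp]
  rfl

theorem prod_unitary {ι : Type} [Fintype ι] [DecidableEq ι] (W : ι → Matrix (Fin 2) (Fin 2) ℂ)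
    (hW : ∀ i, W i ∈ Matrix.unitaryGroup (Fin 2) ℂ) :
    Matrix.of (fun x y : ι → Fin 2 => ∏ i, W i (x i) (y i)) ∈
      Matrix.unitaryGroup (ι → Fin 2) ℂ := by
  rw [mem_unitaryGroup_iff']
  ext x y
  have h : ∀ i, ∑ t, star (W i t (x i)) * W i t (y i) = if x i = y i then 1 else 0 := by
    intro i
    have := congrFun (congrFun (mem_unitaryGroup_iff'.1 (hW i)) (x i)) (y i)
    simpa [mul_apply, one_apply] using this
  simp only [mul_apply, star_apply, of_apply, star_prod, ← prod_mul_distrib]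
  rw [← Fintype.piFinset_univ, ← prod_univ_sum (fun _ => univ)
    (fun i t => star (W i t (x i)) * W i t (y i))]
  simp only [h, one_apply, Finset.prod_ite_zero, funext_iff]
  simp

theorem conj_diag_apply {n : Type} [Fintype n] [DecidableEq n] (U : Matrix n n ℂ) (r : n → ℂ)
    (x y : n) : (U * diagonal r * star U) x y = ∑ z, U x z * r z * star (U y z) := by
  simp [mul_apply, diagonal_apply]

theorem ptr_classical (I : Finset (Fin 3)) (W : Fin 3 → Matrix (Fin 2) (Fin 2) ℂ)
    (hW : ∀ i, W i ∈ Matrix.unitaryGroup (Fin 2) ℂ) (q : X → ℂ) :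
    ‖ptr I (Matrix.of (fun x y : X => ∏ i, W i (x i) (y i)) * diagonal q *
      star (Matrix.of (fun x y : X => ∏ i, W i (x i) (y i))))‖ =
      ‖fun a : A I => ∑ c : B I, q (mg I a c)‖ := by
  have h1 := prod_unitary (fun i : {i // i ∈ I} => W i.1) (fun i => hW i.1)
  have h2 := prod_unitary (fun i : {i // i ∉ I} => W i.1) (fun i => hW i.1)
  rw [← l2_opNorm_diagonal, ← norm_conj _ (diagonal _) h1]
  congr 1
  ext a b
  have hp : ∀ (a u : A I) (c v : B I), ∏ i, W i (mg I a c i) (mg I u v i) =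
      (∏ i : {i // i ∈ I}, W i.1 (a i) (u i)) * ∏ i : {i // i ∉ I}, W i.1 (c i) (v i) := by
    intro a u c v
    rw [← Fintype.prod_subtype_mul_prod_subtype (fun i => i ∈ I)]
    congr 1
    · exact prod_congr (by congr; exact Subsingleton.elim _ _) (fun i _ => by simp [mg, i.2])
    · exact prod_congr rfl (fun i _ => by simp [mg, i.2])
  have h3 : ∀ v : B I, ∑ c : B I, star (∏ i : {i // i ∉ I}, W i.1 (c i) (v i)) *
      ∏ i : {i // i ∉ I}, W i.1 (c i) (v i) = 1 := by
    intro v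
    have := congrFun (congrFun (mem_unitaryGroup_iff'.1 h2) v) v
    simpa [mul_apply] using this
  simp only [ptr, of_apply, conj_diag_apply, sum_mg I, hp]
  rw [sum_comm]
  refine sum_congr rfl (fun u _ => ?_)
  rw [sum_comm, mul_sum, sum_mul]
  refine sum_congr rfl (fun v _ => ?_)
  rw [← mul_one (_ * q _ * _), ← h3 v, mul_sum]
  exact sum_congr rfl (fun c _ => by rw [star_mul']; ring)

def enc (x : X) : Fin 8 := ⟨4 * x 0 + 2 * x 1 + x 2, by omega⟩

noncomputable def pp (x : X) : ℝ := if enc x < 3 then 1 / 3 else 0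

theorem pp_nonneg (x : X) : 0 ≤ pp x := by unfold pp; split_ifs <;> norm_num

theorem pp_le (x : X) : pp x ≤ 1 / 3 := by unfold pp; split_ifs <;> norm_num

theorem card3 : (univ.filter (fun x : X => enc x < 3)).card = 3 := by decide

theorem card5 : (univ.filter (fun x : X => ¬ enc x < 3)).card = 5 := by decide

theorem pp_sum : ∑ x, pp x = 1 := by
  simp only [pp, sum_ite, sum_const, card3]; norm_num

theorem q_bounds (U W : Matrix X X ℂ) (hU : U ∈ Matrix.unitaryGroup X ℂ)
    (hW : W ∈ Matrix.unitaryGroup X ℂ) (D : Matrix X X ℝ) (hD : D ∈ doublyStochastic ℝ X)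
    (q : X → ℝ) (h : U * diagonal (fun x => (((D *ᵥ pp) x : ℝ) : ℂ)) * star U =
      W * diagonal (fun x => ((q x : ℝ) : ℂ)) * star W) :
    (∀ x, 0 ≤ q x ∧ q x ≤ 1 / 3) ∧ ∑ x, q x = 1 := by
  have hr : ∀ x, 0 ≤ (D *ᵥ pp) x ∧ (D *ᵥ pp) x ≤ 1 / 3 := by
    intro x
    show 0 ≤ ∑ y, D x y * pp y ∧ ∑ y, D x y * pp y ≤ 1 / 3
    refine ⟨sum_nonneg (fun y _ => mul_nonneg (nonneg_of_mem_doublyStochastic hD) (pp_nonneg y)), ?_⟩
    refine (sum_le_sum (fun y _ => mul_le_mul_of_nonneg_left (pp_le y)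
      (nonneg_of_mem_doublyStochastic hD))).trans ?_
    rw [← sum_mul, sum_row_of_mem_doublyStochastic hD, one_mul]
  have hs : ∑ x, (D *ᵥ pp) x = 1 := by rw [sum_mulVec_of_mem_doublyStochastic hD, pp_sum]
  generalize D *ᵥ pp = r at h hr hs
  have hV : star W * U ∈ Matrix.unitaryGroup X ℂ := mul_mem (Unitary.star_mem hW) hU
  have e : diagonal (fun x => ((q x : ℝ) : ℂ)) =
      (star W * U) * diagonal (fun x => ((r x : ℝ) : ℂ)) * star (star W * U) := by
    have := mem_unitaryGroup_iff'.1 hW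
    calc _ = (star W * W) * diagonal (fun x => ((q x : ℝ) : ℂ)) * (star W * W) := by simp [this]
      _ = star W * (W * diagonal (fun x => ((q x : ℝ) : ℂ)) * star W) * W := by
        simp only [mul_assoc]
      _ = _ := by rw [← h, star_mul, star_star]; simp only [mul_assoc]
  generalize star W * U = V at hV e
  have hq : ∀ x, q x = ∑ y, Complex.normSq (V x y) * r y := by
    intro x
    have := congrFun (congrFun e x) x
    rw [conj_diag_apply, diagonal_apply_eq] at this
    apply Complex.ofReal_injective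
    rw [this]; push_cast
    exact sum_congr rfl (fun y _ => by
      rw [← Complex.mul_conj]; simp only [RCLike.star_def]; ring)
  have h1 : ∀ x, ∑ y, Complex.normSq (V x y) = 1 := by
    intro x
    have := congrFun (congrFun (mem_unitaryGroup_iff.1 hV) x) x
    apply Complex.ofReal_injective
    simpa [mul_apply, Complex.mul_conj] using this
  have h2 : ∀ y, ∑ x, Complex.normSq (V x y) = 1 := by
    intro y
    have := congrFun (congrFun (mem_unitaryGroup_iff'.1 hV) y) y
    apply Complex.ofReal_injective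
    simpa [mul_apply, ← Complex.normSq_eq_conj_mul_self] using this
  refine ⟨fun x => ⟨?_, ?_⟩, ?_⟩
  · rw [hq]; exact sum_nonneg (fun y _ => mul_nonneg (Complex.normSq_nonneg _) (hr y).1)
  · rw [hq]
    refine (sum_le_sum (fun y _ => mul_le_mul_of_nonneg_left (hr y).2
      (Complex.normSq_nonneg _))).trans ?_
    rw [← sum_mul, h1, one_mul]
  · simp only [hq]
    rw [sum_comm]
    simp only [← sum_mul, h2, one_mul, hs]

theorem sum_ff (g : (I : Finset (Fin 3)) → Matrix (A I) (A I) ℂ) :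
    ∑ I, ff I (g I) = ‖g {0, 1}‖ + ‖g {0, 2}‖ + ‖g {1, 2}‖ := by
  unfold ff
  rw [← sum_filter, show univ.filter (fun I : Finset (Fin 3) => I.card = 2) =
    {{0, 1}, {0, 2}, {1, 2}} by decide, sum_insert (by decide), sum_pair (by decide), add_assoc]

theorem marg (I : Finset (Fin 3)) (q : X → ℝ) (hq : ∀ x, 0 ≤ q x) : ∃ y : X,
    ‖fun a : A I => ∑ c : B I, ((q (mg I a c) : ℝ) : ℂ)‖ ≤
      ∑ x, if ∀ i ∈ I, x i = y i then q x else 0 := by
  obtain ⟨a, -, ha⟩ := exists_max_image univ (fun a : A I => ∑ c : B I, q (mg I a c)) univ_nonempty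
  refine ⟨mg I a 0, (pi_norm_le_iff_of_nonneg (sum_nonneg (fun x _ => ?_))).2 (fun b => ?_)⟩
  · split_ifs; exacts [hq x, le_rfl]
  · rw [← Complex.ofReal_sum, Complex.norm_real, Real.norm_of_nonneg (sum_nonneg (fun _ _ => hq _))]
    refine (ha b (mem_univ _)).trans ?_
    rw [sum_mg I]
    refine le_trans (le_of_eq (sum_congr rfl (fun c _ => ?_))) (single_le_sum (f := fun u : A I =>
      ∑ c : B I, if ∀ i ∈ I, mg I u c i = mg I a 0 i then q (mg I u c) else 0)
      (fun u _ => sum_nonneg (fun c _ => ?_)) (mem_univ a))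
    · rw [if_pos (fun i hi => by simp [mg, hi])]
    · split_ifs; exacts [hq _, le_rfl]

theorem classical_le (q : X → ℝ) (hq : ∀ x, 0 ≤ q x ∧ q x ≤ 1 / 3) (hs : ∑ x, q x = 1)
    (y z w : X) : (∑ x, if ∀ i ∈ ({0, 1} : Finset (Fin 3)), x i = y i then q x else 0) +
      (∑ x, if ∀ i ∈ ({0, 2} : Finset (Fin 3)), x i = z i then q x else 0) +
      (∑ x, if ∀ i ∈ ({1, 2} : Finset (Fin 3)), x i = w i then q x else 0) ≤ 5 / 3 := by
  let k : X → ℕ := fun x => (if ∀ i ∈ ({0, 1} : Finset (Fin 3)), x i = y i then 1 else 0) +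
    (if ∀ i ∈ ({0, 2} : Finset (Fin 3)), x i = z i then 1 else 0) +
    (if ∀ i ∈ ({1, 2} : Finset (Fin 3)), x i = w i then 1 else 0) - 1
  have hk : ∑ x, k x ≤ 2 := by
    simp only [k]; revert y z w; decide +kernel
  have hk' : ∑ x, (k x : ℝ) ≤ 2 := by exact_mod_cast hk
  rw [← sum_add_distrib, ← sum_add_distrib]
  refine (sum_le_sum (g := fun x => q x + k x / 3) (fun x _ => ?_)).trans ?_
  · have := hq x
    simp only [k]
    split_ifs <;> norm_num <;> linarith
  · rw [sum_add_distrib, hs, ← sum_div]; linarith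

def SS : Fin 8 → Fin 8 → ℤ :=
  ![![114, -19, 7, 19, 42, 11, -23, -11], ![-19, 27, -25, -27, -7, 22, -20, -22],
    ![7, -25, 92, 25, -20, 22, 45, -22], ![19, -27, 25, 27, 7, -22, 20, 22],
    ![42, -7, -20, 7, 23, -11, -16, 11], ![11, 22, 22, -22, -11, 55, -11, -55],
    ![-23, -20, 45, 20, -16, -11, 36, 11], ![-11, -22, -22, 22, 11, -55, 11, 55]]

noncomputable def sg : Matrix X X ℂ := Matrix.of fun x y => (SS (enc x) (enc y) : ℂ) / 429

theorem sg_feas : ∃ U ∈ Matrix.unitaryGroup X ℂ, ∃ D ∈ doublyStochastic ℝ X,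
    sg = U * diagonal (fun x => (((D *ᵥ pp) x : ℝ) : ℂ)) * star U := by
  have hH : sg.IsHermitian := by
    ext x y
    have : ∀ x y : X, SS (enc x) (enc y) = SS (enc y) (enc x) := by decide +kernel
    simp [sg, this x y]
  have h2 : sg * sg = (1 / 3 : ℂ) • sg := by
    ext x y
    have : ∀ x y : X, ∑ z, SS (enc x) (enc z) * SS (enc z) (enc y) = 143 * SS (enc x) (enc y) := by
      decide +kernel
    have h := congrArg (Int.cast : ℤ → ℂ) (this x y)
    push_cast at h
    simp only [sg, mul_apply, of_apply, Matrix.smul_apply, smul_eq_mul, div_mul_div_comm, ← sum_div, h]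
    ring
  have ht : ∑ x, hH.eigenvalues x = 1 := by
    have h := hH.trace_eq_sum_eigenvalues
    have : ∑ x : X, SS (enc x) (enc x) = 429 := by decide +kernel
    have h' := congrArg (Int.cast : ℤ → ℂ) this
    push_cast at h'
    have h3 : sg.trace = 1 := by
      simp only [sg, trace, Matrix.diag, of_apply, ← sum_div, h']; norm_num
    apply Complex.ofReal_injective
    push_cast
    exact h.symm.trans h3
  have hl : ∀ x, 0 ≤ hH.eigenvalues x ∧ hH.eigenvalues x ≤ 1 / 3 := by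
    intro x
    have e := hH.mulVec_eigenvectorBasis x
    have e2 : (sg * sg) *ᵥ ⇑(hH.eigenvectorBasis x) =
        hH.eigenvalues x • hH.eigenvalues x • ⇑(hH.eigenvectorBasis x) := by
      rw [← mulVec_mulVec, e, mulVec_smul, e]
    rw [h2, smul_mulVec, e] at e2
    have hv : (⇑(hH.eigenvectorBasis x) : X → ℂ) ≠ 0 := by
      intro h0
      exact hH.eigenvectorBasis.orthonormal.ne_zero x (by ext i; exact congrFun h0 i)
    obtain ⟨i, hi⟩ := Function.ne_iff.1 hv
    have e3 := congrFun e2 i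
    simp only [Pi.smul_apply, smul_eq_mul, Complex.real_smul, ← mul_assoc] at e3
    have e4 := mul_right_cancel₀ hi e3
    have e5 : 1 / 3 * hH.eigenvalues x = hH.eigenvalues x * hH.eigenvalues x := by
      apply Complex.ofReal_injective; push_cast; exact e4
    constructor <;> nlinarith
  refine ⟨hH.eigenvectorUnitary, hH.eigenvectorUnitary.2, Matrix.of fun x y =>
    if enc y < 3 then hH.eigenvalues x else (1 - 3 * hH.eigenvalues x) / 5, ?_, ?_⟩
  · rw [mem_doublyStochastic_iff_sum]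
    refine ⟨fun x y => ?_, fun x => ?_, fun y => ?_⟩
    · have := hl x
      simp only [of_apply]; split_ifs <;> linarith
    · simp only [of_apply, sum_ite, sum_const, card3, card5, nsmul_eq_mul]; push_cast; ring
    · simp only [of_apply]
      split_ifs
      · exact ht
      · rw [← sum_div, sum_sub_distrib, ← mul_sum, ht]; simp; norm_num
  · have : ∀ x, (Matrix.of (fun x y =>
        if enc y < 3 then hH.eigenvalues x else (1 - 3 * hH.eigenvalues x) / 5) *ᵥ pp) x =
        hH.eigenvalues x := by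
      intro x
      simp only [mulVec, dotProduct, of_apply, pp, ite_mul, mul_ite, mul_zero]
      rw [sum_congr rfl (g := fun y => if enc y < 3 then hH.eigenvalues x / 3 else 0)
        (fun y _ => by split_ifs <;> ring)]
      simp only [sum_ite, sum_const, card3]; simp; ring
    simp only [this]
    exact hH.spectral_theorem

theorem norm_ge {n : Type} [Fintype n] [DecidableEq n] (M : Matrix n n ℂ) (v : n → ℤ) :
    (∑ a, ∑ b, (v a : ℂ) * M a b * v b).re ≤ ‖M‖ * ∑ a, (v a : ℝ) ^ 2 := by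
  let x : EuclideanSpace ℂ n := WithLp.toLp 2 (fun a => (v a : ℂ))
  have h1 := l2_opNorm_mulVec M x
  have h2 := norm_inner_le_norm (𝕜 := ℂ) x ((EuclideanSpace.equiv n ℂ).symm (M *ᵥ x))
  have h3 : ‖x‖ * ‖x‖ = ∑ a, (v a : ℝ) ^ 2 := by
    rw [← sq, EuclideanSpace.norm_sq_eq]; simp [x]
  have h4 : inner ℂ x ((EuclideanSpace.equiv n ℂ).symm (M *ᵥ x)) =
      ∑ a, ∑ b, (v a : ℂ) * M a b * v b := by
    simp only [x, PiLp.inner_apply]
    refine sum_congr rfl (fun a _ => ?_)
    simp [mulVec, dotProduct, sum_mul]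
    exact sum_congr rfl (fun b _ => by ring)
  rw [← h4, ← h3]
  refine (Complex.re_le_norm _).trans (h2.trans ?_)
  nlinarith [norm_nonneg x]

theorem ptr_ge (I : Finset (Fin 3)) (g : Fin 8 → ℤ) (s t : ℤ)
    (h1 : ∑ a : A I, ∑ b : A I, ∑ c : B I, g (enc (mg I a 0)) *
      SS (enc (mg I a c)) (enc (mg I b c)) * g (enc (mg I b 0)) = s)
    (h2 : ∑ a : A I, g (enc (mg I a 0)) ^ 2 = t) : (s : ℝ) / 429 ≤ ‖ptr I sg‖ * t := by
  have h := norm_ge (ptr I sg) (fun a => g (enc (mg I a 0)))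
  have e2 : ∑ a : A I, (g (enc (mg I a 0)) : ℝ) ^ 2 = t := by exact_mod_cast h2
  have e1 : ∑ a : A I, ∑ b : A I, (g (enc (mg I a 0)) : ℂ) * ptr I sg a b * g (enc (mg I b 0)) =
      (((s : ℝ) / 429 : ℝ) : ℂ) := by
    rw [← h1]; push_cast
    simp only [ptr, sg, of_apply, mul_sum, sum_mul, sum_div]
    exact sum_congr rfl (fun a _ => sum_congr rfl (fun b _ => sum_congr rfl (fun c _ => by ring)))
  rwa [e1, e2, Complex.ofReal_re] at h

theorem quantum : 5 / 3 < ∑ I, ff I (ptr I sg) := by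
  rw [sum_ff]
  have h1 := ptr_ge {0, 1} ![1, 1, -1, -1, 1, 1, -1, -1] 1047 4 (by decide +kernel) (by decide +kernel)
  have h2 := ptr_ge {0, 2} ![2, 0, 2, 0, 1, 0, 1, 0] 1231 5 (by decide +kernel) (by decide +kernel)
  have h3 := ptr_ge {1, 2} ![-1, 1, -1, -1, -1, 1, -1, -1] 839 4 (by decide +kernel)
    (by decide +kernel)
  push_cast at h1 h2 h3
  linarith

theorem classical (τ : Matrix X X ℂ)
    (h1 : ∃ U ∈ Matrix.unitaryGroup X ℂ, ∃ D ∈ doublyStochastic ℝ X,
      τ = U * diagonal (fun x => (((D *ᵥ pp) x : ℝ) : ℂ)) * star U)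
    (h2 : ∃ W : Fin 3 → Matrix (Fin 2) (Fin 2) ℂ, (∀ i, W i ∈ Matrix.unitaryGroup (Fin 2) ℂ) ∧
      ∃ q : X → ℝ, τ = Matrix.of (fun x y : X => ∏ i, W i (x i) (y i)) *
        diagonal (fun x => ((q x : ℝ) : ℂ)) *
        star (Matrix.of (fun x y : X => ∏ i, W i (x i) (y i)))) :
    ∑ I, ff I (ptr I τ) ≤ 5 / 3 := by
  obtain ⟨U, hU, D, hD, e1⟩ := h1
  obtain ⟨W, hW, q, e2⟩ := h2
  obtain ⟨hq, hs⟩ := q_bounds U _ hU (prod_unitary W hW) D hD q (e1.symm.trans e2)
  rw [sum_ff, e2, ptr_classical _ W hW, ptr_classical _ W hW, ptr_classical _ W hW]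
  obtain ⟨y, hy⟩ := marg {0, 1} q (fun x => (hq x).1)
  obtain ⟨z, hz⟩ := marg {0, 2} q (fun x => (hq x).1)
  obtain ⟨w, hw⟩ := marg {1, 2} q (fun x => (hq x).1)
  linarith [classical_le q hq hs y z w]

end Pool.Agent.H.MP_2725c9_mp
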